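import Pool.Agent.MP_249f74_an.H18.Spec
import Pool.Agent.MP_249f74_an.H27.Tan
import Pool.Agent.MP_249f74_an.H32.Move
import Pool.Agent.MP_249f74_an.H96.Pv

/-!
The equation of the tangent complex; passage from generic points to all points.
-/

open MvPolynomial Matrix

namespace Pool.Agent.MP_249f74_an.H18

open H17.Cm (grad rf dv)
open H32 (Mir pos dir pt edge St Tl)
open H42 (Gen Cur)
open H65 (Lin)
open H27 (Tg tl_iff)

section Spec

variable {C κ B B' : Type} [Field C] [Field B] [Field B'] [Algebra C B] [Algebra C B']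

/-- Evaluation at a point and the inverse of the value of `a`. -/
noncomputable def th (a : MvPolynomial κ C) (q : κ → B) : MvPolynomial (Option κ) C →ₐ[C] B :=
  aeval fun o => o.elim (aeval q a)⁻¹ q

@[simp] lemma th_none (a : MvPolynomial κ C) (q : κ → B) : th a q (X none) = (aeval q a)⁻¹ :=
  aeval_X _ _

@[simp] lemma th_some (a : MvPolynomial κ C) (q : κ → B) (i : κ) : th a q (X (some i)) = q i :=
  aeval_X _ _

@[simp] lemma th_rename (a : MvPolynomial κ C) (q : κ → B) (p : MvPolynomial κ C) :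
    th a q (rename some p) = aeval q p := aeval_rename ..

lemma ex_num (a : MvPolynomial κ C) (W : MvPolynomial (Option κ) C) :
    ∃ (n : ℕ) (V : MvPolynomial κ C), ∀ (B : Type) [Field B] [Algebra C B] (q : κ → B),
      aeval q a ≠ 0 → aeval q a ^ n * th a q W = aeval q V := by
  induction W using MvPolynomial.induction_on with
  | C c => exact ⟨0, MvPolynomial.C c, fun B _ _ q _ => by simp [th]⟩
  | add p r hp hr =>
    obtain ⟨n, V, h⟩ := hp
    obtain ⟨n', V', h'⟩ := hr
    exact ⟨n + n', a ^ n' * V + a ^ n * V', fun B _ _ q h0 => by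
      simp only [map_add, map_mul, map_pow, ← h B q h0, ← h' B q h0]; ring⟩
  | mul_X p o hp =>
    obtain ⟨n, V, h⟩ := hp
    cases o with
    | none => exact ⟨n + 1, V, fun B _ _ q h0 => by
        rw [map_mul, th_none, ← h B q h0, pow_succ]; field_simp⟩
    | some i => exact ⟨n, V * X i, fun B _ _ q h0 => by
        rw [map_mul, th_some, map_mul, ← h B q h0, aeval_X, mul_assoc]⟩

/-- Identities at a generic point hold at all points where the denominator does not vanish. -/
lemma spec {f a : MvPolynomial κ C} {q : κ → B} (hq : ∀ P, aeval q P = 0 → f ∣ P)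
    (ha : aeval q a ≠ 0) {q' : κ → B'} (h0 : aeval q' f = 0) (ha' : aeval q' a ≠ 0)
    {W : MvPolynomial (Option κ) C} (h : th a q W = 0) : th a q' W = 0 := by
  obtain ⟨n, V, e⟩ := ex_num a W
  obtain ⟨y, rfl⟩ := hq V (by rw [← e B q ha, h, mul_zero])
  have := e B' q' ha'
  rw [map_mul, h0, zero_mul] at this
  exact (mul_eq_zero.1 this).resolve_left (pow_ne_zero _ ha')

/-- Evaluation with free variables. -/
noncomputable def th2 {σ : Type} (a : MvPolynomial κ C) (q : κ → B) (u : σ → B) :
    MvPolynomial σ (MvPolynomial (Option κ) C) →ₐ[C] B := aevalTower (th a q) u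

lemma spec2 {σ : Type} [Infinite B] {f a : MvPolynomial κ C} {q : κ → B}
    (hq : ∀ P, aeval q P = 0 → f ∣ P) (ha : aeval q a ≠ 0) {q' : κ → B'} (h0 : aeval q' f = 0)
    (ha' : aeval q' a ≠ 0) {W : MvPolynomial σ (MvPolynomial (Option κ) C)}
    (h : ∀ u, th2 a q u W = 0) (u : σ → B') : th2 a q' u W = 0 := by
  have h1 : map (th a q).toRingHom W = 0 := MvPolynomial.funext fun u => by
    rw [eval_map, map_zero]; exact h u
  have h2 : map (th a q').toRingHom W = 0 := MvPolynomial.ext _ _ fun m => by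
    have := congrArg (coeff m) h1
    rw [coeff_map, coeff_zero] at this ⊢
    exact spec hq ha h0 ha' this
  have := congrArg (eval u) h2
  rwa [eval_map, map_zero] at this

end Spec

variable {k C ι B : Type} [Field k] [Algebra k ℝ] [Field C] [Algebra k C] [Fintype ι]
  [DecidableEq ι] [Field B] [Algebra C B] {m m' : Mir k C ι} {H P h : MvPolynomial (ι ⊕ ι) C}
  {l l' : ι ⊕ ι → B} {t : B}

omit [DecidableEq ι] in
/-- Invariance at one generic point. -/
theorem Iv.of_gen [Infinite B] {q : ι → B} (hq : m.On q)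
    (h : ∀ u, H65.ev q (rf (grad m.f q) u) H = H65.ev q u H) : Iv m.f H := by
  intro B' _ _ q' u h0 hn
  let n : ι → MvPolynomial ι (MvPolynomial (Option ι) C) :=
    fun i => MvPolynomial.C (rename some (pderiv i m.f))
  let a := ∑ i, pderiv i m.f * pderiv i m.f
  have key : ∀ (B : Type) [Field B] [Algebra C B] (q u : ι → B),
      th2 a q u (H65.ev (B := MvPolynomial ι (MvPolynomial (Option ι) C))
        (fun i => MvPolynomial.C (X (some i)))
        (fun i => X i - 2 * (∑ j, n j * X j) * MvPolynomial.C (X none) * n i) H -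
        H65.ev (B := MvPolynomial ι (MvPolynomial (Option ι) C))
          (fun i => MvPolynomial.C (X (some i))) X H) =
      H65.ev q (rf (grad m.f q) u) H - H65.ev q u H := fun B _ _ q u => by
    rw [map_sub, H65.map_ev, H65.map_ev]
    congr 3 <;> ext i <;> simp [th2, n, a, rf, grad, dotProduct, div_eq_mul_inv, map_ofNat]
  rw [← sub_eq_zero, ← key]
  exact spec2 (fun P => (hq P).1) (by simpa [a, grad, dotProduct] using hq.nn) h0
    (by simpa [a, grad, dotProduct] using hn) (fun u => by rw [key, h, sub_self]) u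

/-- Vanishing on the tangent lines at one generic point. -/
theorem Tn.of_gen [Infinite B] {p : ι → B} (hp : m.On p)
    (h : ∀ v, grad m.f p ⬝ᵥ v = 0 → H65.ev p v H = 0) : Tn m.f H := by
  intro B' _ _ q' u h0 hn hu
  obtain ⟨e, he⟩ := Function.ne_iff.1 hn
  have he' : grad m.f p e ≠ 0 := fun h1 => he <| by
    obtain ⟨y, hy⟩ := (hp _).1 h1
    change aeval q' (pderiv e m.f) = 0
    rw [hy, map_mul, h0, zero_mul]
  let n : ι → MvPolynomial ι (MvPolynomial (Option ι) C) :=
    fun i => MvPolynomial.C (rename some (pderiv i m.f))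
  have key : ∀ (B : Type) [Field B] [Algebra C B] (q u : ι → B),
      th2 (pderiv e m.f) q u (H65.ev (fun i => MvPolynomial.C (X (some i)))
        (fun i => X i - if i = e then (∑ j, n j * X j) * MvPolynomial.C (X none) else 0) H) =
      H65.ev q (u - Pi.single e (grad m.f q ⬝ᵥ u / grad m.f q e)) H := fun B _ _ q u => by
    rw [H65.map_ev]
    congr 2 <;> ext i
    · simp [th2]
    · by_cases hi : i = e <;> simp [th2, n, hi, grad, dotProduct, div_eq_mul_inv]
  have := spec2 (fun P => (hp P).1) he' h0 he (fun v => (key B p v).trans (h _ (by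
    rw [dotProduct_sub, dotProduct_single, mul_div_cancel₀ _ he', sub_self]))) u
  rwa [key, hu, zero_div, Pi.single_zero, sub_zero] at this

/-- Vanishing at one generic tangent edge. -/
theorem Tn.of_tl [CharZero C] (hH : Lin H) (hl : Tl m l) (h : H42.ev l H = 0) : Tn m.f H := by
  intro B' _ _ q' u h0 hn hu
  obtain ⟨t, hl⟩ := tl_iff.1 hl
  obtain ⟨e, he⟩ := Function.ne_iff.1 hn
  have he' : grad m.f (pt l t) e ≠ 0 := fun h1 => he <| by
    obtain ⟨y, hy⟩ := (hl.on _).1 h1
    change aeval q' (pderiv e m.f) = 0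
    rw [hy, map_mul, h0, zero_mul]
  have key : ∀ (B : Type) [Field B] [Algebra C B] (q u : ι → B),
      th (rename Sum.inl (pderiv e m.f)) (Sum.elim q u) (H65.ev (fun i => X (some (.inl i)))
        (fun i => X (some (.inr i)) - if i = e then (∑ j, rename some (rename Sum.inl
          (pderiv j m.f)) * X (some (.inr j))) * X none else 0) H) =
      H65.ev q (u - Pi.single e (grad m.f q ⬝ᵥ u / grad m.f q e)) H := fun B _ _ q u => by
    rw [H65.map_ev]
    have e1 : ∀ p : MvPolynomial ι C, aeval (Sum.elim q u) (rename Sum.inl p) = aeval q p :=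
      fun p => aeval_rename ..
    congr 2 <;> ext i
    · simp
    · by_cases hi : i = e <;>
        simp only [hi, if_true, if_false, map_sub, map_mul, map_sum, th_rename, th_none, th_some,
          e1, map_zero] <;> simp [hi, grad, dotProduct, div_eq_mul_inv]
  have := spec (q' := Sum.elim q' u) (fun P => (hl.ker he' P).1) (by rwa [aeval_rename])
    (by rwa [aeval_rename]) (by rwa [aeval_rename]) ((key B _ _).trans (by
      rw [ev_pt hH l t] at h
      convert h using 3
      ext i
      by_cases hi : i = e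
      · subst hi
        rw [hl.dir_eq he', dotProduct, ← Finset.add_sum_erase _ _ (Finset.mem_univ i),
          Finset.sum_congr rfl fun j hj => by
            rw [Function.update_of_ne (Finset.ne_of_mem_erase hj)]]
        simp only [Pi.sub_apply, Function.update_self, Pi.single_eq_same]
        field_simp
        ring
      · simp [hi]))
  rwa [key, hu, zero_div, Pi.single_zero, sub_zero] at this

section Lin

omit [DecidableEq ι]

/-- The shift along the direction. -/
noncomputable def sh : MvPolynomial (ι ⊕ ι) C →ₐ[C] Polynomial (MvPolynomial (ι ⊕ ι) C) :=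
  H65.ev (fun i => Polynomial.C (X (.inl i)) + Polynomial.X * Polynomial.C (X (.inr i)))
    fun i => Polynomial.C (X (.inr i))

lemma sh_der (F : MvPolynomial (ι ⊕ ι) C) :
    (sh F).derivative = sh (∑ i, X (.inr i) * pderiv (.inl i) F) := by
  rw [sh, ← H65.der'_apply (k := C), H65.chain_ev, map_sum]
  simp only [H65.der'_apply, map_add, Polynomial.derivative_C, Polynomial.derivative_mul, mul_zero,
    Polynomial.derivative_X, Finset.sum_const_zero, add_zero, zero_add, map_mul, one_mul]
  exact Finset.sum_congr rfl fun i _ => by rw [mul_comm]; simp [H65.ev]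

omit [Fintype ι] in
lemma sh_zero (F : MvPolynomial (ι ⊕ ι) C) : (sh F).eval 0 = F := by
  have : ((Polynomial.aeval 0 : Polynomial (MvPolynomial (ι ⊕ ι) C) →ₐ[_]
      MvPolynomial (ι ⊕ ι) C).restrictScalars C).comp sh = AlgHom.id C _ :=
    algHom_ext fun i => by cases i <;> simp [sh, H65.ev]
  simpa using DFunLike.congr_fun this F

omit [Fintype ι] in
lemma sh_eq_zero {F : MvPolynomial (ι ⊕ ι) C} (h : sh F = 0) : F = 0 := by
  rw [← sh_zero F, h, Polynomial.eval_zero]

lemma lin_of_dvd {F : MvPolynomial (ι ⊕ ι) C} (h : F ∣ ∑ i, X (.inr i) * pderiv (.inl i) F) :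
    Lin F := by
  refine sh_eq_zero ?_
  rw [← sh_der]
  by_contra h0
  have h1 := Polynomial.degree_le_of_dvd (sh_der F ▸ map_dvd sh h) h0
  exact h1.not_gt (Polynomial.degree_derivative_lt fun e => h0 (by simp [e]))

/-- Factors of line polynomials are line polynomials. -/
lemma lin_factor [CharZero C] {F G : MvPolynomial (ι ⊕ ι) C} (h : Lin G) (G0 : G ≠ 0)
    (hd : F ∣ G) : Lin F := by
  have h1 : (sh G).natDegree = 0 := Polynomial.derivative_eq_zero.1 (by
    rw [sh_der]; exact (congrArg sh h).trans (map_zero _))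
  have h2 := Polynomial.natDegree_le_of_dvd (map_dvd sh hd) fun e => G0 (sh_eq_zero e)
  refine sh_eq_zero ?_
  rw [← sh_der, Polynomial.eq_C_of_natDegree_eq_zero (p := sh F) (by omega),
    Polynomial.derivative_C]

end Lin

omit [DecidableEq ι] in
/-- Generic tangent edges exist. -/
theorem exists_tl [IsAlgClosed C] [CharZero C] (m : Mir k C ι) :
    ∃ (B : Type) (_ : Field B) (_ : Algebra C B) (_ : IsAlgClosed B) (l0 l : ι ⊕ ι → B),
      Gen C l0 ∧ Tl m l := by
  obtain ⟨B, _, _, _, v, hv⟩ := H96.Pv.exists_ext C (ι ⊕ ι)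
  have : CharZero B := charZero_of_injective_algebraMap (algebraMap C B).injective
  have h := H32.gen_iff.2 hv.1
  obtain ⟨l, hl⟩ := H27.tl_ex h m
  exact ⟨B, _, _, ‹_›, v, l, h, hl⟩

omit [DecidableEq ι] in
theorem TP.ker [CharZero C] (hP : TP m P) (hl : Tl m l) (Q : MvPolynomial (ι ⊕ ι) C) :
    H42.ev l Q = 0 ↔ P ∣ Q :=
  H32.ker_of_rk hP.prime (hP.tn.tl hP.lin hl) (H32.cur_iff_rk.1 hl.1).ge Q

theorem tp_of_tl [CharZero C] (hl : Tl m l) (hP : Prime P) (h : ∀ Q, H42.ev l Q = 0 ↔ P ∣ Q) :
    TP m P ∧ RK P := by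
  have : CharZero B := charZero_of_injective_algebraMap (algebraMap C B).injective
  obtain ⟨t, ht⟩ := tl_iff.1 hl
  obtain ⟨μ, -, hμ⟩ := H32.grad_tan hP h ht.on.zero ht.on.grad_ne ht.tan
  have h1 : ∀ i, H42.ev l (pderiv (.inl i) P) = μ * grad m.f (pt l t) i :=
    fun i => congrFun hμ (.inl i)
  have h2 : ∀ i, H42.ev l (pderiv (.inr i) P) = μ * (t * grad m.f (pt l t) i) :=
    fun i => congrFun hμ (.inr i)
  have h3 : Lin P := lin_of_dvd ((h _).1 (by
    have := congrArg (μ * ·) ht.tan
    simp only [map_sum, map_mul, h1]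
    simpa [H42.ev, dotProduct, Finset.mul_sum, dir, mul_comm, mul_left_comm] using this))
  exact ⟨⟨hP, h3, Tn.of_tl h3 hl ((h _).2 dvd_rfl)⟩, fun i j => (h _).1 (by
    simp only [map_sub, map_mul, h1, h2]; ring)⟩

theorem tpe [IsAlgClosed C] [CharZero C] : TPE k C ι := fun m => by
  obtain ⟨B, _, _, _, -, l, -, hl⟩ := exists_tl m
  obtain ⟨P, hP, h⟩ := hl.1
  exact ⟨P, tp_of_tl hl hP h⟩

omit [DecidableEq ι] in
theorem TP.dvd [IsAlgClosed C] [CharZero C] (hP : TP m P) (hH : Lin H) (h : Tn m.f H) : P ∣ H := by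
  obtain ⟨B, _, _, _, -, l, -, hl⟩ := exists_tl m
  exact (hP.ker hl H).1 (h.tl hH hl)

theorem TP.rk [IsAlgClosed C] [CharZero C] (hP : TP m P) : RK P := by
  obtain ⟨B, _, _, _, -, l, -, hl⟩ := exists_tl m
  exact (tp_of_tl hl hP.prime (hP.ker hl)).2

omit [DecidableEq ι] in
/-- Generic zeros of the equation are generic tangent edges. -/
theorem TP.tl [IsAlgClosed C] [CharZero C] [IsAlgClosed B] (hP : TP m P) (hl : Cur C l)
    (h0 : H42.ev l P = 0) : Tl m l := by
  obtain ⟨B', _, _, _, v, hv⟩ := H96.Pv.exists_ext B (ι ⊕ ι)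
  let _ : Algebra C B' := ((algebraMap B B').comp (algebraMap C B)).toAlgebra
  have : IsScalarTower C B B' := IsScalarTower.of_algebraMap_eq fun _ => rfl
  have : CharZero B' := charZero_of_injective_algebraMap (algebraMap C B').injective
  let φ := IsScalarTower.toAlgHom C B B'
  have e1 : ∀ {κ : Type} (y : κ → B) (Q : MvPolynomial κ C), aeval (φ ∘ y) Q = φ (aeval y Q) :=
    fun y Q => (comp_aeval_apply y φ Q).symm
  obtain ⟨l1, h1⟩ := H27.tl_ex (H32.gen_iff.2 (hv.1.restrictScalars (algebraMap C B).injective)) m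
  obtain ⟨σ, hσ⟩ := H42.conj (l := l1) (l' := φ ∘ l) fun F => by
    rw [hP.ker h1, H42.ev, e1, map_eq_zero]
    exact (H32.ker_of_rk hP.prime h0 (H32.cur_iff_rk.1 hl).ge F).symm
  obtain ⟨t1, h2⟩ := tl_iff.1 h1
  have h3 := h2.map σ
  rw [hσ] at h3
  have e2 : H32.sec m.f (φ ∘ l) = (H32.sec m.f l).map (algebraMap B B') := by
    have := comp_aeval_apply
      (f := fun i => Polynomial.C (pos l i) + Polynomial.C (dir l i) * Polynomial.X)
      (Polynomial.mapAlgHom φ) m.f
    refine Eq.trans ?_ this.symm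
    simp [H32.sec, H17.Cm.line, pos, dir]
  have h4 := (Polynomial.mem_roots (h3.sec_ne m)).2 ((H32.eval_sec ..).trans h3.on.zero)
  rw [e2, (IsAlgClosed.splits _).roots_map, Multiset.mem_map] at h4
  obtain ⟨t, -, ht⟩ := h4
  have e3 : pt (φ ∘ l) (σ t1) = φ ∘ pt l t := by
    ext i; simp [pt, pos, dir, ← ht, φ, Algebra.smul_def]
  refine ⟨hl, t, fun Q => by rw [← h3.on, e3, e1, map_eq_zero φ], φ.injective ?_⟩
  have := h3.tan
  rw [e3] at this
  simpa [grad, dotProduct, e1, dir] using this

/-- The mirror datum at a generic zero of a polynomial of rank one. -/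
theorem RK.edge [CharZero C] (hs : Squarefree h) (hr : RK h) (hl : Cur C l)
    (h0 : H42.ev l h = 0) : ∃ (n : ι → B) (a b : B), n ≠ 0 ∧ (a ≠ 0 ∨ b ≠ 0) ∧
      ∀ D : Derivation C B B, n ⬝ᵥ (a • dv D (pos l) + b • dv D (dir l)) = 0 := by
  have : CharZero B := charZero_of_injective_algebraMap (algebraMap C B).injective
  obtain ⟨π, hπ, hk⟩ := hl
  obtain ⟨g, rfl⟩ := (hk _).1 h0
  have g0 : H42.ev l g ≠ 0 := fun e => by
    obtain ⟨y, rfl⟩ := (hk _).1 e
    exact hπ.not_isUnit (hs π ⟨y, by ring⟩)
  have hn : grad (π * g) l ≠ 0 := fun e => H32.grad_ne hπ hk <| funext fun i => by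
    have := congrFun e i
    have h1 : aeval l π = 0 := (hk π).2 dvd_rfl
    simp only [grad, Derivation.leibniz, smul_eq_mul, map_add, map_mul, h1, zero_mul, zero_add,
      Pi.zero_apply] at this
    exact (mul_eq_zero.1 this).resolve_left g0
  obtain ⟨G, hG⟩ : ∃ G, G = grad (π * g) l := ⟨_, rfl⟩
  have h1 : ∀ i j, pos G i * dir G j = pos G j * dir G i := fun i j => by
    obtain ⟨y, hy⟩ := hr i j
    have := congrArg (H42.ev l) hy
    rw [map_mul (H42.ev l) (π * g), h0, zero_mul, map_sub, map_mul (H42.ev l), map_mul (H42.ev l),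
      sub_eq_zero] at this
    rw [hG]; exact this
  have h2 : ∀ D : Derivation C B B, pos G ⬝ᵥ dv D (pos l) + dir G ⬝ᵥ dv D (dir l) = 0 := fun D => by
    have := H17.Cm.grad_dv (θ := D) h0
    rwa [← hG, H32.dot_edge] at this
  rw [← hG] at hn
  by_cases hp : pos G = 0
  · refine ⟨dir G, 0, 1, fun e => hn ?_, .inr one_ne_zero, fun D => by simpa [hp] using h2 D⟩
    ext (i | i)
    exacts [congrFun hp i, congrFun e i]
  · obtain ⟨i, hi⟩ := Function.ne_iff.1 hp
    have hi : pos G i ≠ 0 := hi
    have h3 : dir G = (dir G i / pos G i) • pos G := by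
      ext j
      rw [Pi.smul_apply, smul_eq_mul, div_mul_eq_mul_div, eq_div_iff hi]
      linear_combination h1 i j
    refine ⟨pos G, 1, dir G i / pos G i, hp, .inl one_ne_zero, fun D => ?_⟩
    have := h2 D
    rw [h3, smul_dotProduct] at this
    simpa [dotProduct_add] using this

end Pool.Agent.MP_249f74_an.H18
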