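import Pool.Agent.MP_249f74_an.H65.Self
import Pool.Agent.MP_249f74_an.H44.Edge
import Pool.Agent.MP_249f74_an.H53.V3e

/-!
Mirrors of rank one whose own tangent complex is in a finite class.
-/

open MvPolynomial Matrix

namespace Pool.Agent.MP_249f74_an.H18

open H65 H44
open H17.Cm (grad)
open H32 (Mir Qd)

section Net

variable {k L κ : Type} [Field k] [Field L] [Algebra k L] [Fintype κ]

lemma der_dotp (δ : Derivation k L L) (a c : κ → L) :
    δ (a ⬝ᵥ c) = (fun i => δ (a i)) ⬝ᵥ c + a ⬝ᵥ fun i => δ (c i) := by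
  simp [dotProduct, Finset.sum_add_distrib, mul_comm, add_comm]

lemma wron (δ : Derivation k L L) (cst : ∀ a, δ a = 0 → ∃ c, a = algebraMap k L c) {α : Type}
    (T : α → κ → L) (h : ∀ c, (∀ a, T a ⬝ᵥ c = 0) → ∀ a, (fun i => δ (T a i)) ⬝ᵥ c = 0)
    (h0 : ∀ Y : κ → k, (∀ a, T a ⬝ᵥ H74.cv L Y = 0) → Y = 0) (c : κ → L) (hc : ∀ a, T a ⬝ᵥ c = 0) :
    c = 0 := by
  classical
  suffices H : ∀ (s : Finset κ) (c : κ → L), (∀ i ∉ s, c i = 0) → (∀ a, T a ⬝ᵥ c = 0) → c = 0 from
    H Finset.univ c (by simp) hc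
  intro s
  induction s using Finset.strongInduction with | H s ih =>
  intro c c1 c2
  by_contra c0
  obtain ⟨j, hj⟩ := Function.ne_iff.1 c0
  have hj' : c j ≠ 0 := hj
  obtain ⟨z, hz⟩ : ∃ z : κ → L, z = (c j)⁻¹ • c := ⟨_, rfl⟩
  have z2 : ∀ a, T a ⬝ᵥ z = 0 := fun a => by rw [hz, dotProduct_smul, c2, smul_zero]
  have z3 := ih (s.erase j) (Finset.erase_ssubset (by_contra fun e => hj' (c1 j e)))
    (fun i => δ (z i)) (fun i hi => by
      by_cases e : i = j
      · simp [hz, e, hj']
      · simp [hz, c1 i (by simpa [e] using hi)]) fun a => by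
        have := der_dotp δ (T a) z
        rwa [z2, map_zero, h z z2, zero_add, eq_comm] at this
  choose y hy using fun i => cst _ (congrFun z3 i)
  have := hy j
  rw [h0 y fun a => (funext hy : z = H74.cv L y) ▸ z2 a] at this
  simp [hz, hj'] at this

/-- A stable family of covectors is defined over the constants. -/
lemma net [DecidableEq κ] (δ : Derivation k L L)
    (cst : ∀ a, δ a = 0 → ∃ c, a = algebraMap k L c) (T : Fin 3 → κ → L)
    (h : ∀ c, (∀ a, T a ⬝ᵥ c = 0) → ∀ a, (fun i => δ (T a i)) ⬝ᵥ c = 0) :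
    ∃ (n : ℕ) (B : Matrix (Fin n) κ k) (S : Matrix κ (Fin n) k), n ≤ 3 ∧ B * S = 1 ∧
      ∀ a, ∃ N, T a = N ᵥ* B.map (algebraMap k L) := by
  let A : Submodule k (κ → k) :=
    { carrier := {Y | ∀ a, T a ⬝ᵥ H74.cv L Y = 0}
      add_mem' := fun h1 h2 a => by rw [H74.cv_add, dotProduct_add, h1 a, h2 a, add_zero]
      zero_mem' := fun a => by rw [H74.cv_eq_zero.2 rfl, dotProduct_zero]
      smul_mem' := fun s Y h1 a => by rw [H74.cv_smul, dotProduct_smul, h1 a, smul_zero] }
  obtain ⟨n, B, S, h1, h2⟩ := H74.split A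
  have h3 := wron δ cst (fun a => T a ᵥ* S.map (algebraMap k L)) (fun c hc a => by
      have := h _ (fun a => (dotProduct_mulVec _ _ _).trans (hc a)) a
      rw [dotProduct_mulVec] at this
      rw [← this]
      congr 1
      ext i
      simp [vecMul, dotProduct, mul_comm]) fun Y hY => by
    have := (h2 (S *ᵥ Y)).2 fun a => by rw [← H74.cv_mulVec, dotProduct_mulVec, hY]
    rwa [mulVec_mulVec, h1, one_mulVec] at this
  refine ⟨n, B, S, ?_, h1, fun a => ⟨T a ᵥ* S.map (algebraMap k L), funext fun o => ?_⟩⟩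
  · simpa using LinearMap.finrank_le_finrank_of_injective
      (f := (of fun a => T a ᵥ* S.map (algebraMap k L)).mulVecLin)
      ((injective_iff_map_eq_zero _).2 fun c hc => h3 c (congrFun hc))
  · have h4 := (h2 ((1 - S * B) *ᵥ Pi.single o 1)).1 (by
      rw [mulVec_mulVec, Matrix.mul_sub, ← Matrix.mul_assoc, h1, Matrix.mul_one, Matrix.one_mul,
        sub_self, zero_mulVec]) a
    rw [← H74.cv_mulVec, H74.cv_single, dotProduct_mulVec, dotProduct_single_one,
      Matrix.map_sub _ (map_sub _), Matrix.map_one _ (map_zero _) (map_one _), vecMul_sub,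
      vecMul_one, Matrix.map_mul, ← vecMul_vecMul] at h4
    exact sub_eq_zero.1 h4

end Net

section R1

variable {k L K ι : Type} [Field k] [Field L] [Field K] [Algebra k K] [Fintype ι] [DecidableEq ι]
  [Algebra k L] [Algebra L K] [IsScalarTower k L K] {q : ι → K} {e o : ι}
  {d : ι → Derivation k K K} {δ : Derivation k L L} {W : ι → L} {H : L} {lam : K}

lemma aff (h : R1 q e d δ W H lam o) {a : ι → L} {b : L} (hb : dot a q = algebraMap L K b) :
    ∃ μ : L, (∀ j, a j = a e * W j + μ * δ (W j)) ∧ b = a e * H + μ * δ H := by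
  have h1 : ∀ j, lam * algebraMap L K (a j - a e * W j) =
      algebraMap L K (δ (W j)) * (algebraMap L K (δ b) - dot (fun i => δ (a i)) q) := fun j => by
    have := h.d_dot a j
    rw [hb, h.dl, map_mul] at this
    linear_combination -this
  have h2 : ∀ j, a j = a e * W j + (a o - a e * W o) * δ (W j) := fun j =>
    sub_eq_iff_eq_add'.1 ((algebraMap L K).injective (mul_left_cancel₀ h.l0 (by
      have := h1 o
      rw [h.wo, map_one, one_mul] at this
      rw [h1 j, ← this, map_mul]
      ring)))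
  refine ⟨_, h2, (algebraMap L K).injective ?_⟩
  rw [← hb, map_add, map_mul, map_mul, ← h.h0, ← h.h1, ← dot_mul, ← dot_mul, dot, dot, dot,
    ← Finset.sum_add_distrib]
  exact Finset.sum_congr rfl fun j _ => by
    nth_rw 1 [h2 j]
    simp only [map_add, map_mul]
    ring

/-- The tangent hyperplanes lie in a net. -/
lemma net_of [CharZero L] (h : R1 q e d δ W H lam o) {F : MvPolynomial (ι ⊕ ι) k} (hF : Lin F)
    (F0 : pen q F ≠ 0) (hr : rf (fun i => algebraMap L K (W i)) (pen q F) = pen q F)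
    (hp : (lin fun i => algebraMap L K (W i)) ∣ pen q F) :
    ∃ (n : ℕ) (B : Matrix (Fin n) (Option ι) k) (S : Matrix (Option ι) (Fin n) k), n ≤ 3 ∧
      B * S = 1 ∧ ∃ N, (fun o : Option ι => o.elim (-H) W) = N ᵥ* B.map (algebraMap k L) := by
  by_cases hy : ∃ y : ι → L, W ⬝ᵥ y = 0 ∧ (fun i => δ (W i)) ⬝ᵥ y = 0 ∧
      (fun i => δ (δ (W i))) ⬝ᵥ y = -1
  · obtain ⟨y, y0, y1, y2⟩ := hy
    have h1 := h.edge hF F0 hr y0 y1 y2 (.inl hp)
    obtain ⟨β, hβ⟩ : ∃ β, β = ∑ i, δ (δ (δ (W i))) * y i := ⟨_, rfl⟩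
    obtain ⟨μ, h2, h3⟩ := aff h (a := fun i => δ (δ (δ (W i))) + β * δ (δ (W i)))
      (b := δ (δ (δ H)) + β * δ (δ H)) (by
        rw [dot_sub, dot_mul, dot_alg, ← hβ, h.h2] at h1
        rw [map_add, map_mul, h1]
        simp only [dot, map_add, map_mul, add_mul, Finset.sum_add_distrib, mul_assoc,
          ← Finset.mul_sum]
        ring)
    obtain ⟨n, B, S, a1, a2, a3⟩ := net δ (fun _ => h.cst)
      ![fun o : Option ι => o.elim (-H) W, fun o => o.elim (-δ H) fun i => δ (W i),
        fun o => o.elim (-δ (δ H)) fun i => δ (δ (W i))] fun c hc a => by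
      have c0 := hc 0
      have c1 := hc 1
      have c2 := hc 2
      fin_cases a
      · simpa [dotProduct] using c1
      · simpa [dotProduct] using c2
      · have h4 := Finset.sum_congr (s₁ := Finset.univ) rfl fun j _ =>
          congrArg (· * c (some j)) (h2 j)
        simp [dotProduct] at c0 c1 c2 ⊢
        simp only [add_mul _ _ (c _), mul_assoc _ _ (c _), Finset.sum_add_distrib,
          ← Finset.mul_sum] at h4
        linear_combination h4 - c none * h3 - β * c2 + μ * c1 +
          (δ (δ (δ (W e))) + β * δ (δ (W e))) * c0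
    exact ⟨n, B, S, a1, a2, a3 0⟩
  · obtain ⟨s, t, h1⟩ := H74.par2 (T := W) (H := fun i => δ (W i)) (K := fun i => δ (δ (W i)))
      fun y y0 y1 => by_contra fun y2 => hy ⟨-(((fun i => δ (δ (W i))) ⬝ᵥ y)⁻¹ • y),
        by simp [y0], by simp [y1], by simp [y2]⟩
    obtain ⟨n, B, S, a1, a2, a3⟩ := net δ (fun _ => h.cst)
      ![fun o : Option ι => o.elim (-H) W, fun o => o.elim (-δ H) fun i => δ (W i),
        fun o => o.elim 1 0] fun c hc a => by
      have c0 := hc 0
      have c1 := hc 1
      have c2 := hc 2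
      fin_cases a
      · simpa [dotProduct] using c1
      · have h4 := congrArg (· ⬝ᵥ fun i => c (some i)) h1
        simp [dotProduct] at c0 c1 c2
        simp only [add_dotProduct, smul_dotProduct] at h4
        simp only [c2, mul_zero, neg_zero, zero_add] at c0 c1
        simpa [dotProduct, c2, c0, c1] using h4
      · simp [dotProduct]
    exact ⟨n, B, S, a1, a2, a3 0⟩

end R1

variable {k C ι : Type} [Field k] [Algebra k ℝ] [Field C] [Algebra k C] [Fintype ι]
  [DecidableEq ι] [IsAlgClosed C] [CharZero C]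

lemma qd_of_row {m : Mir k C ι} {B : Matrix (Fin 3) (Option ι) C}
    {S : Matrix (Option ι) (Fin 3) C} (hS : B * S = 1) (h : H53.Row3 m B) {H}
    (hH : Cls m m H) : Qd m := by
  obtain ⟨Ω, _, _, _, _, a, lam, q, y, N, M, a1, a2, a3, a4, a5, a6, a7, a8⟩ :=
    H53.dyn m m B S H hS h h h.rk hH
  exact (H53.fin3 (fun c e => by rw [← vecMul_one c, ← hS, ← vecMul_vecMul, e, zero_vecMul])
    a1 a2 a3 a4 a5 a6 a7 a8).elim (fun e => absurd rfl e.1) (·.2)

omit [Algebra k ℝ] in
lemma quad_of_flat {K : Type} [Field K] [Algebra k K] {q w : ι → K} {e : ι}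
    {d : ι → Derivation k K K} (G : Gr q e w d) (h : ∀ i j, d j (w i) = 0) : Quad k q := by
  choose b hb using fun i => G.cst' (h i)
  obtain ⟨c, hc⟩ := G.cst' (a := ∑ i, w i * q i) fun j => by
    simpa [h] using G.tan (d j)
  refine ⟨lin b - MvPolynomial.C c, fun e0 => ?_, (totalDegree_sub _ _).trans
    (by simp [(lin_hom b).totalDegree_le.trans one_le_two]), by simp [aeval_lin, ← hb, ← hc]⟩
  have := congrArg (pderiv e) e0
  simp only [map_sub, pderiv_lin, pderiv_C, sub_zero, map_zero, C_eq_zero] at this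
  simpa [this, G.we] using hb e

/-- A mirror of rank one with an invariant that vanishes on its tangent lines. -/
lemma row_of_rk1 {m : Mir k C ι} {f : MvPolynomial ι k} {K : Type} [Field K] [Algebra k K]
    {y : ι → K} {e : ι} {d : ι → Derivation k K K} (R : Rm m f y e d) (hm : ¬Qd m)
    (h1 : Rk1 (fun i => grad f y i / grad f y e) d) {F : MvPolynomial (ι ⊕ ι) k} (hF : Lin F)
    (F0 : pen y F ≠ 0) (hr : rf (fun i => grad f y i / grad f y e) (pen y F) = pen y F)
    (hp : (lin fun i => grad f y i / grad f y e) ∣ pen y F) :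
    ∃ (B : Matrix (Fin 3) (Option ι) C) (S : Matrix (Option ι) (Fin 3) C), B * S = 1 ∧
      H53.Row3 m B := by
  have : CharZero k := (algebraMap k ℝ).charZero
  have : CharZero K := charZero_of_injective_algebraMap (algebraMap k K).injective
  obtain ⟨i, j, h0⟩ : ∃ i j, d j (grad f y i / grad f y e) ≠ 0 := by
    by_contra! hn
    exact hm (R.qd (quad_of_flat R.gr hn))
  obtain ⟨L, δ, W, H, lam, o, hw, h⟩ := exists_R1 R.gr h1 h0
  rw [hw] at hr hp
  obtain ⟨n, B, S, a1, a2, N, a3⟩ := net_of h hF F0 hr hp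
  have b1 : ∀ (Ω : Type) [Field Ω] [Algebra C Ω] (q : ι → Ω), m.On q → ∃ N : Fin n → Ω,
      H53.tvv m.f q = N ᵥ* (B.map (algebraMap k C)).map (algebraMap C Ω) := fun Ω _ _ q hq => by
    let _ : Algebra k Ω := ((algebraMap C Ω).comp (algebraMap k C)).toAlgebra
    have : IsScalarTower k C Ω := IsScalarTower.of_algebraMap_eq fun _ => rfl
    obtain ⟨φ, b1, -⟩ := R.emb Ω q hq
    have b2 : ∀ i, grad m.f q i = grad m.f q e * φ (W i) := fun i => by
      have := congrFun (R.w_eq b1) i
      rw [congrFun hw i] at this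
      rw [← mul_div_cancel₀ (grad m.f q i) (R.grad_ne b1), ← this]
      rfl
    have b3 : H53.tvv m.f q = fun o => grad m.f q e * φ ((o.elim (-H) W : L) : K) := by
      ext (_ | i)
      · have := congrArg φ h.h0
        simp only [dot, map_sum, map_mul, b1] at this
        rw [H53.tvv, H17.Cm.aeval_tg]
        simp only [Option.elim_none, dotProduct, IntermediateField.coe_neg, map_neg, mul_neg,
          neg_inj]
        rw [show φ H = _ from this.symm, Finset.mul_sum]
        exact Finset.sum_congr rfl fun i _ => by rw [b2 i, mul_comm, mul_assoc]; rfl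
      · exact b2 i
    refine ⟨fun a => grad m.f q e * φ (N a), funext fun o => ?_⟩
    rw [b3]
    simp only [congrFun a3 o, vecMul, dotProduct, map_apply, IntermediateField.coe_sum, map_sum,
      Finset.mul_sum, IntermediateField.coe_mul, map_mul, mul_assoc]
    exact Finset.sum_congr rfl fun a _ => by congr 2; exact φ.commutes _
  have b2 : B.map (algebraMap k C) * S.map (algebraMap k C) = 1 := by
    rw [← Matrix.map_mul, a2, Matrix.map_one _ (map_zero _) (map_one _)]
  obtain rfl : n = 3 := le_antisymm a1 (by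
    obtain ⟨Ω, _, _, q, hq⟩ := H17.Cm.exists_gen_pt m.prime
    have : CharZero Ω := charZero_of_injective_algebraMap (algebraMap C Ω).injective
    obtain ⟨N, hN⟩ := b1 Ω q hq
    refine (H17.Cm.three_le hq m.deg (H32.Mir.On.grad_ne hq)
      (D := LinearMap.range (B.map (algebraMap k C)).vecMulLinear) fun g =>
        ⟨fun a => g (N a), funext fun o => ?_⟩).trans ?_
    · rw [show H17.Cm.tv m.f q o = _ from congrFun hN o]
      simp only [vecMul, dotProduct, map_apply, map_sum, vecMulLinear_apply]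
      exact Finset.sum_congr rfl fun a _ => by
        rw [mul_comm (N a), ← Algebra.smul_def, map_smul, smul_eq_mul, mul_comm]
    · simpa using LinearMap.finrank_range_le (B.map (algebraMap k C)).vecMulLinear)
  exact ⟨_, _, b2, b1⟩

/-- A mirror whose own tangent complex is in a finite class is a quadric. -/
theorem self_row : SELF k C ι := by
  intro m H hH
  by_contra hm
  obtain ⟨f, K, _, _, y, e, d, R⟩ := ex_rm m
  obtain ⟨L, _, _, q, hq⟩ := H17.Cm.exists_gen_pt m.prime
  let _ : Algebra k L := ((algebraMap C L).comp (algebraMap k C)).toAlgebra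
  have : IsScalarTower k C L := IsScalarTower.of_algebraMap_eq fun _ => rfl
  have : CharZero k := (algebraMap k ℝ).charZero
  have : CharZero K := charZero_of_injective_algebraMap (algebraMap k K).injective
  have : CharZero L := charZero_of_injective_algebraMap (algebraMap k L).injective
  obtain ⟨φ, h1, h2⟩ := R.emb L q hq
  have h3 := (Module.Basis.ofVectorSpace k C).linearIndependent
  obtain ⟨s, g, rfl⟩ := dec (Module.Basis.ofVectorSpace k C) H
  obtain ⟨j, hj, g0⟩ := Finset.exists_ne_zero_of_sum_ne_zero hH.ne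
  have h4 := hH.lin.dec h3 j hj
  have h5 := h4.pen_ne R.prime R.on fun h => g0 (by simp [h])
  have h6 := iv_pen hH.iv (H32.Mir.On.zero hq) (H32.Mir.On.nn hq)
  have h7 := tn_pen hH.tn (H32.Mir.On.zero hq) (R.grad_ne h1)
  rw [Rm.pen_dec h1] at h6 h7
  have h8 := sub_eq_zero.1 ((h2 _ _ h3).poly (s := s)
    (a := fun j => rf (fun i => grad f y i / grad f y e) (pen y (g j)) - pen y (g j)) (by
      simpa only [map_sub, mul_sub, Finset.sum_sub_distrib, R.map_rf' h1, map_sum, map_mul, rf_C,
        sub_eq_zero] using h6) j hj)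
  have h9 := R.gr.pr_eq_zero.1 ((h2 _ _ h3).poly (s := s)
    (a := fun j => pr e (fun i => grad f y i / grad f y e) (pen y (g j))) (by
      simpa only [map_pr, R.w_eq h1, map_sum, map_mul, pr_C] using h7) j hj)
  obtain ⟨B, S, a1, a2⟩ := row_of_rk1 R hm
    ((R.gr.ts h4 h8 h5 h9).resolve_left fun h => hm (R.qd h)) h4 h5 h8 h9
  exact hm (qd_of_row a1 a2 hH)

end Pool.Agent.MP_249f74_an.H18
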