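import Pool.Agent.MP_249f74_an.H42.Main
import Pool.Agent.MP_249f74_an.H32.Bas
import Pool.Agent.MP_249f74_an.H65.Defs

/-!
Tangent complexes in finite classes: statements of the modules and their assembly.
-/

open MvPolynomial Matrix

namespace Pool.Agent.MP_249f74_an.H18

open H17.Cm (grad rf Conf Warp tg)
open H32 (Mir pos dir pt edge St Tl Qd Cm Δ sys)
open H42 (Gen Cur FL Sf)
open H65 (Lin)

section Defs

variable {k C ι : Type} [Field k] [Algebra k ℝ] [Field C] [Algebra k C] [Fintype ι]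
  [DecidableEq ι]

/-- The polynomial `H` is invariant under the reflections in `f = 0`. -/
def Iv (f : MvPolynomial ι C) (H : MvPolynomial (ι ⊕ ι) C) : Prop :=
  ∀ (B : Type) [Field B] [Algebra C B] (q u : ι → B), aeval q f = 0 →
    grad f q ⬝ᵥ grad f q ≠ 0 → H65.ev q (rf (grad f q) u) H = H65.ev q u H

/-- The polynomial `H` vanishes on the tangent lines of `g = 0`. -/
def Tn (g : MvPolynomial ι C) (H : MvPolynomial (ι ⊕ ι) C) : Prop :=
  ∀ (B : Type) [Field B] [Algebra C B] (p v : ι → B), aeval p g = 0 → grad g p ≠ 0 →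
    grad g p ⬝ᵥ v = 0 → H65.ev p v H = 0

/-- A line polynomial that is invariant for `m` and vanishes on the tangent lines of `m'`. -/
structure Cls (m m' : Mir k C ι) (H : MvPolynomial (ι ⊕ ι) C) : Prop where
  ne : H ≠ 0
  lin : Lin H
  iv : Iv m.f H
  tn : Tn m'.f H

/-- The equation of the complex of the tangent lines. -/
structure TP (m : Mir k C ι) (P : MvPolynomial (ι ⊕ ι) C) : Prop where
  prime : Prime P
  lin : Lin P
  tn : Tn m.f P

/-- The gradient has rank one on the zero set. -/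
def RK (h : MvPolynomial (ι ⊕ ι) C) : Prop :=
  ∀ i j, h ∣ pderiv (.inl i) h * pderiv (.inr j) h - pderiv (.inl j) h * pderiv (.inr i) h

/-- All reflections in `m` of generic tangent edges of `m'` are zeros of `h`. -/
def Tot (m m' : Mir k C ι) (h : MvPolynomial (ι ⊕ ι) C) : Prop :=
  ∀ (B : Type) [Field B] [Algebra C B] [IsAlgClosed B] (l l' : ι ⊕ ι → B) (t : B),
    Tl m' l → St m l t l' → H42.ev l' h = 0

/-- One reflection in `m` of a generic tangent edge of `m'` is a tangent edge of `m'`. -/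
def One (m m' : Mir k C ι) : Prop :=
  ∃ (B : Type) (_ : Field B) (_ : Algebra C B) (_ : IsAlgClosed B) (l l' : ι ⊕ ι → B) (t : B),
    Tl m' l ∧ St m l t l' ∧ Tl m' l'

/-- The tangent hyperplanes of both hypersurfaces lie in one space of dimension three. -/
def V3 (f g : MvPolynomial ι C) : Prop :=
  ∃ b : Fin 3 → Option ι → C, LinearIndependent C b ∧ ∀ Y : Option ι → C, (∀ a, b a ⬝ᵥ Y = 0) →
    (f ∣ tg f ⬝ᵥ fun o => MvPolynomial.C (Y o)) ∧ g ∣ tg g ⬝ᵥ fun o => MvPolynomial.C (Y o)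

/-- Confocal or warped. -/
def Cm3 (f g : MvPolynomial ι C) : Prop := Conf f g ∨ Warp f g ∨ Warp g f

/-- The Hessian. -/
noncomputable def Hs {B : Type} [Field B] [Algebra C B] (f : MvPolynomial ι C) (q a b : ι → B) :
    B := ∑ i, ∑ j, aeval q (pderiv j (pderiv i f)) * a i * b j

/-- The second fundamental form has rank at most one. -/
def Dev (f : MvPolynomial ι C) : Prop :=
  ∀ (B : Type) [Field B] [Algebra C B] (q a b : ι → B), aeval q f = 0 → grad f q ≠ 0 →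
    grad f q ⬝ᵥ a = 0 → grad f q ⬝ᵥ b = 0 → Hs f q a a * Hs f q b b = Hs f q a b ^ 2

/-- The tangent lines of `m` at generic points that belong to the complex `P` are asymptotic. -/
def Bad (m : Mir k C ι) (P : MvPolynomial (ι ⊕ ι) C) : Prop :=
  ∀ (B : Type) [Field B] [Algebra C B] (q u : ι → B), m.On q → grad m.f q ⬝ᵥ u = 0 →
    H65.ev q u P = 0 → Hs m.f q u u = 0

end Defs

section Rows

variable (k C Ω ι : Type) [Field k] [Algebra k ℝ] [Field C] [Algebra k C] [Field Ω] [Algebra C Ω]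
  [Fintype ι] [DecidableEq ι]

/-- A finite class gives an invariant polynomial. -/
def INV : Prop :=
  ∀ (m m' : Mir k C ι) (G : MvPolynomial (ι ⊕ ι) C) (l : ι ⊕ ι → Ω), G ≠ 0 → Tl m' l →
    H42.ev l G = 0 → (∀ (l l' : ι ⊕ ι → Ω) t, St m l t l' → Cur C l → H42.ev l G = 0 →
      H42.ev l' G = 0) → ∃ H, Cls m m' H

/-- A mirror whose own tangent complex is in a finite class is a quadric. -/
def SELF : Prop := ∀ (m : Mir k C ι) H, Cls m m H → Qd m

/-- The equation of the tangent complex. -/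
def TPE : Prop := ∀ m : Mir k C ι, ∃ P, TP m P ∧ RK P

/-- Finite classes of quadrics. -/
def CONF : Prop :=
  ∀ (m m' : Mir k C ι) H P, Qd m → m ≠ m' → Cls m m' H → TP m' P → Cm3 m.f m'.f ∨ Tot m m' P

/-- Rigidity: all reflections of the tangent complex lie in a complex of rank one. -/
def BERT : Prop :=
  ∀ (m m' : Mir k C ι) h, m ≠ m' → Squarefree h → RK h → Tot m m' h →
    Cm3 m.f m'.f ∨ V3 m.f m'.f

/-- Cones with a common vertex space of codimension three. -/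
def TWO : Prop :=
  ∀ (m m' : Mir k C ι) H, m ≠ m' → V3 m.f m'.f → Cls m m' H → Cm3 m.f m'.f

/-- A relation over one step makes the odd part of the discriminants invariant. -/
def ONE : Prop :=
  ∀ (m : Mir k C ι) (J : Finset (Mir k C ι)) (l l' : ι ⊕ ι → Ω) (t x r : Ω), ¬Qd m → Gen C l →
    St m l t l' → x ≠ 0 → H96A.Inv (FL C l) x → (∀ σ ∈ FL C l, σ t = t → σ r = r) →
    r ^ 2 = x * (sys k C Ω ι).R J l' → ∃ h, Squarefree h ∧ Lin h ∧ Iv m.f (h * h) ∧
      (∀ T ∈ J, Tn T.f h) ∧ ∀ π, Prime π → π ∣ h → ∃ T ∈ J, π ∣ Δ Ω T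

/-- The prime factors of discriminants have rank one. -/
def RKD : Prop :=
  ∀ (T : Mir k C ι) (l : ι ⊕ ι → Ω) π, Gen C l → Prime π → π ∣ Δ Ω T → RK π

/-- A good tangent direction gives an invariant component. -/
def GOOD : Prop :=
  ∀ (m m' : Mir k C ι) H P, ¬Qd m → m ≠ m' → Cls m m' H → TP m' P → ¬Bad m P → One m m'

/-- Rigidity for one component. -/
def BER : Prop := ∀ m m' : Mir k C ι, m ≠ m' → ¬Dev m'.f → One m m' → Cm3 m.f m'.f

/-- No good direction, rank at least two. -/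
def BADS : Prop :=
  ∀ (m m' : Mir k C ι) H P, ¬Qd m → ¬Dev m.f → m ≠ m' → Cls m m' H → TP m' P → ¬Bad m P

/-- No good direction, rank one. -/
def BADD : Prop :=
  ∀ (m m' : Mir k C ι) H P, ¬Qd m → Dev m.f → m ≠ m' → Cls m m' H → TP m' P → Bad m P →
    V3 m.f m'.f

/-- The second mirror has rank one. -/
def DEV : Prop :=
  ∀ (m m' : Mir k C ι) H P, ¬Qd m → Dev m'.f → m ≠ m' → Cls m m' H → TP m' P → ¬Bad m P →
    Cm3 m.f m'.f ∨ V3 m.f m'.f

/-- Relations over one step. -/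
def CL1 : Prop :=
  ∀ (m : Mir k C ι) (J : Finset (Mir k C ι)) (l l' : ι ⊕ ι → Ω) (t x r : Ω), ¬Qd m → Gen C l →
    St m l t l' → x ≠ 0 → H96A.Inv (FL C l) x → (∀ σ ∈ FL C l, σ t = t → σ r = r) →
    r ^ 2 = x * (sys k C Ω ι).R J l' → ∀ T ∈ J, Cm m T

end Rows

section Assembly

variable {k C Ω ι : Type} [Field k] [Algebra k ℝ] [Field C] [Algebra k C] [Field Ω] [Algebra C Ω]
  [Fintype ι] [DecidableEq ι]

omit [Fintype ι] [DecidableEq ι] in
lemma ev_eq (l : ι ⊕ ι → Ω) (H : MvPolynomial (ι ⊕ ι) C) :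
    H42.ev l H = H65.ev (pos l) (dir l) H := by
  rw [H42.ev, H65.ev]
  congr 2
  ext (i | i) <;> rfl

omit [DecidableEq ι] in
lemma ev_pt [CharZero C] {H : MvPolynomial (ι ⊕ ι) C} (h : Lin H) (l : ι ⊕ ι → Ω) (t : Ω) :
    H42.ev l H = H65.ev (pt l t) (dir l) H := by
  rw [ev_eq]
  exact (h.tr (pos l) (dir l) t).symm

omit [DecidableEq ι] in
lemma Tn.tl [CharZero C] {m : Mir k C ι} {H : MvPolynomial (ι ⊕ ι) C} (h : Tn m.f H) (hl : Lin H)
    {l : ι ⊕ ι → Ω} (t : Tl m l) : H42.ev l H = 0 := by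
  obtain ⟨-, s, h1, h2⟩ := t
  rw [ev_pt hl l s]
  exact h Ω _ _ h1.zero h1.grad_ne h2

omit [DecidableEq ι] in
lemma Iv.st [CharZero C] {m : Mir k C ι} {H : MvPolynomial (ι ⊕ ι) C} (h : Iv m.f H) (hl : Lin H)
    {l l' : ι ⊕ ι → Ω} {t : Ω} (s : St m l t l') : H42.ev l' H = H42.ev l H := by
  rw [ev_pt hl l t, ev_pt hl l' t, s.pt_eq, s.dir_eq]
  exact h Ω _ _ s.zero s.nn

omit [Fintype ι] [DecidableEq ι] in
lemma rk_of_primes {h : MvPolynomial (ι ⊕ ι) C} (hs : Squarefree h)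
    (hp : ∀ π, Prime π → π ∣ h → RK π) : RK h := fun i j => by
  refine (UniqueFactorizationMonoid.dvd_iff_emultiplicity_le hs.ne_zero).2 fun π hπ => ?_
  by_cases hd : π ∣ h
  · refine ((squarefree_iff_emultiplicity_le_one h).1 hs π).elim
      (fun h1 => h1.trans (Order.one_le_iff_ne_zero.2 (emultiplicity_ne_zero.2 ?_)))
      fun h1 => absurd h1 hπ.not_isUnit
    obtain ⟨g, rfl⟩ := hd
    obtain ⟨y, hy⟩ := hp π hπ (dvd_mul_right _ _) i j
    simp only [Derivation.leibniz, smul_eq_mul]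
    exact ⟨g ^ 2 * y + (π * pderiv (.inl i) g + g * pderiv (.inl i) π) * pderiv (.inr j) g +
      pderiv (.inl i) g * g * pderiv (.inr j) π -
      (π * pderiv (.inl j) g + g * pderiv (.inl j) π) * pderiv (.inr i) g -
      pderiv (.inl j) g * g * pderiv (.inr i) π, by linear_combination g ^ 2 * hy⟩
  · simp [emultiplicity_eq_zero.2 hd]

omit [DecidableEq ι] in
/-- The tangent complex of the mirror itself. -/
theorem self (h1 : INV k C Ω ι) (h2 : SELF k C ι) (m : Mir k C ι) (G : MvPolynomial (ι ⊕ ι) C)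
    (l : ι ⊕ ι → Ω) (G0 : G ≠ 0) (hl : Tl m l) (h0 : H42.ev l G = 0)
    (hc : ∀ (l : ι ⊕ ι → Ω) t l', St m l t l' → Cur C l → H42.ev l G = 0 → H42.ev l' G = 0) :
    Qd m := by
  obtain ⟨H, hH⟩ := h1 m m G l G0 hl h0 fun l l' t => hc l t l'
  exact h2 m H hH

/-- Finite classes of quadrics. -/
theorem clq (h1 : INV k C Ω ι) (h2 : TPE k C ι) (h3 : CONF k C ι) (h4 : BERT k C ι)
    (h5 : TWO k C ι) (m : Mir k C ι) (hm : Qd m) : (sys k C Ω ι).CL m := by
  intro m' G l G0 hl h0 hc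
  by_cases e : m' = m
  · exact .inr ⟨e, hm⟩
  obtain ⟨H, hH⟩ := h1 m m' G l G0 hl h0 fun l l' t => hc l t l'
  obtain ⟨P, hP, hr⟩ := h2 m'
  exact .inl ⟨Ne.symm e, (h3 m m' H P hm (Ne.symm e) hH hP).elim id fun ht =>
    (h4 m m' P (Ne.symm e) hP.prime.squarefree hr ht).elim id fun hv =>
      h5 m m' H (Ne.symm e) hv hH⟩

/-- Relations over one step. -/
theorem cl1 [CharZero C] (h1 : ONE k C Ω ι) (h2 : RKD k C Ω ι) (h3 : SELF k C ι)
    (h4 : BERT k C ι) (h5 : TWO k C ι) : CL1 k C Ω ι := by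
  intro m J l l' t x r hm hl hs x0 hx hr e T hT
  obtain ⟨h, a1, a2, a3, a4, a5⟩ := h1 m J l l' t x r hm hl hs x0 hx hr e
  have hH : Cls m T (h * h) := ⟨mul_ne_zero a1.ne_zero a1.ne_zero, a2.mul a2, a3,
    fun B _ _ p v b1 b2 b3 => by rw [map_mul, a4 T hT B p v b1 b2 b3, zero_mul]⟩
  have ne : m ≠ T := by rintro rfl; exact hm (h3 m _ hH)
  refine ⟨ne, (h4 m T h ne a1 (rk_of_primes a1 fun π hπ hd => ?_) fun B _ _ _ l l' t b1 b2 =>
    ?_).elim id fun hv => h5 m T _ ne hv hH⟩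
  · obtain ⟨U, -, hU⟩ := a5 π hπ hd
    exact h2 U l π hl hπ hU
  · have := a3.st hH.lin b2
    rwa [hH.tn.tl hH.lin b1, map_mul, mul_self_eq_zero] at this

/-- Finite classes of all mirrors. -/
theorem cls (h1 : INV k C Ω ι) (h2 : TPE k C ι) (h3 : SELF k C ι) (h4 : TWO k C ι)
    (h5 : ∀ m : Mir k C ι, Qd m → (sys k C Ω ι).CL m) (h6 : GOOD k C ι) (h7 : BER k C ι)
    (h8 : BADS k C ι) (h9 : BADD k C ι) (h10 : DEV k C ι) : (sys k C Ω ι).CLASS := by
  intro m m' G l G0 hl h0 hc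
  by_cases hm : Qd m
  · exact h5 m hm m' G l G0 hl h0 hc
  obtain ⟨H, hH⟩ := h1 m m' G l G0 hl h0 fun l l' t => hc l t l'
  have e : m ≠ m' := by rintro rfl; exact hm (h3 m H hH)
  obtain ⟨P, hP, -⟩ := h2 m'
  refine .inl ⟨e, ?_⟩
  by_cases hb : Bad m P
  · by_cases hd : Dev m.f
    · exact h4 m m' H e (h9 m m' H P hm hd e hH hP hb) hH
    · exact absurd hb (h8 m m' H P hm hd e hH hP)
  by_cases hd : Dev m'.f
  · exact (h10 m m' H P hm hd e hH hP hb).elim id fun hv => h4 m m' H e hv hH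
  · exact h7 m m' e hd (h6 m m' H P hm e hH hP hb)

end Assembly

end Pool.Agent.MP_249f74_an.H18
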