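import Pool.Agent.MP_249f74_an.H18.Top0
import Pool.Agent.MP_249f74_an.H18.SelfV
import Pool.Agent.MP_249f74_an.H65.Cl
import Pool.Agent.MP_249f74_an.H58.Pre
import Pool.Agent.MP_249f74_an.H20.BerRow
import Pool.Agent.MP_249f74_an.H17.CmGood
import Pool.Agent.MP_249f74_an.H27.Badd
import Pool.Agent.MP_249f74_an.H85.Dev
import Pool.Agent.MP_249f74_an.H23.Conf
import Pool.Agent.MP_249f74_an.H74.Bert
import Pool.Agent.MP_249f74_an.H78.Spl

/-!
Reduced chains of reflections in real mirrors do not close up.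
-/

open MvPolynomial Set

namespace Pool.Agent.MP_249f74_an.H18

open H65
open H17.Cm (grad)
open H32 (Mir St Qd Cm pt dir sys)
open H42 (Gen FL Sf)
open H88 (cl)

variable {k C Ω ι : Type} [Field k] [Algebra k ℝ] [Field C] [Algebra k C] [Field Ω] [Algebra C Ω]
  [Fintype ι] [DecidableEq ι] [IsAlgClosed C] [CharZero C]

omit [CharZero C] in
lemma iv_swap {m : Mir k C ι} (hm : ¬Qd m) (hd : ¬Dev m.f) {L : Type}
    [Field L] [Algebra C L] {q : ι → L} (hq : m.On q) {F : MvPolynomial (ι ⊕ ι) C}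
    {h : MvPolynomial (ι ⊕ ι) k} (h1 : Lin F) (h2 : Lin h) (h0 : h ≠ 0) {a : L} (a0 : a ≠ 0)
    (he : rf (grad m.f q) (pen q F) = MvPolynomial.C a * pen q (map (algebraMap k C) h)) :
    rf (grad m.f q) (pen q (map (algebraMap k C) h)) = pen q (map (algebraMap k C) h) := by
  obtain ⟨f, K, _, _, y, e, d, R⟩ := ex_rm m
  let _ : Algebra k L := ((algebraMap C L).comp (algebraMap k C)).toAlgebra
  have : IsScalarTower k C L := IsScalarTower.of_algebraMap_eq fun _ => rfl
  have : CharZero k := (algebraMap k ℝ).charZero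
  have : CharZero K := charZero_of_injective_algebraMap (algebraMap k K).injective
  have : CharZero L := charZero_of_injective_algebraMap (algebraMap k L).injective
  obtain ⟨φ, h3, h4⟩ := R.emb L q hq
  have h5 := (Module.Basis.ofVectorSpace k C).linearIndependent
  obtain ⟨s, g, rfl⟩ := dec (Module.Basis.ofVectorSpace k C) F
  have h6 := h2.pen_ne R.prime R.on h0
  obtain ⟨μ, hμ⟩ := ne_zero_iff.1 h6
  rw [Rm.pen_dec h3, Rm.pen_real h3] at he
  simp only [map_sum, map_mul, rf_C, ← R.map_rf' h3] at he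
  obtain ⟨c, hc⟩ : ∃ c : _ → K, ∀ j, c j * coeff μ (pen y h) =
      coeff μ (rf (fun i => grad f y i / grad f y e) (pen y (g j))) :=
    ⟨_, fun j => div_mul_cancel₀ _ hμ⟩
  have h7 : ∑ j ∈ s, algebraMap C L (Module.Basis.ofVectorSpace k C j) * φ (c j) = a := by
    have := congrArg (coeff μ) he
    simp only [coeff_sum, coeff_C_mul, coeff_map, ← hc, map_mul, ← mul_assoc,
      ← Finset.sum_mul] at this
    exact mul_right_cancel₀ ((map_ne_zero _).2 hμ) this
  obtain ⟨j, hj, c0⟩ := Finset.exists_ne_zero_of_sum_ne_zero (h7 ▸ a0)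
  have h8 := sub_eq_zero.1 ((h4 _ _ h5).poly (s := s) (a := fun j =>
    rf (fun i => grad f y i / grad f y e) (pen y (g j)) - MvPolynomial.C (c j) * pen y h) (by
      simp only [map_sub, mul_sub, Finset.sum_sub_distrib, he, ← h7, map_mul, map_C, map_sum,
        Finset.sum_mul, mul_assoc, RingHom.coe_coe, sub_self]) j hj)
  obtain ⟨_, -, -, h9⟩ := (R.gr.one h2 (h1.dec h5 j hj) (fun h => c0 (by simp [h])) h8
    h6).resolve_right fun h => h.elim (fun h => hm (R.qd h)) fun h => hd (by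
      have h9 : (φ : K →+* L) ∘ y = q := funext h3
      refine H20.dev_of_rk1 R.gr (φ : K →+* L) (fun c => ⟨_, φ.commutes c⟩) (h9 ▸ hq)
        (R.grad_ne h3) (funext fun i => ?_) h
      rw [h9, Pi.smul_apply, smul_eq_mul, Function.comp, congrFun (R.w_eq h3) i,
        mul_div_cancel₀ _ (R.grad_ne h3)])
  rw [Rm.pen_real h3, ← R.map_rf' h3, h9]

/-- Finite classes of mirrors of rank one. -/
lemma cls_dev {m m' : Mir k C ι} (hm : ¬Qd m) (hd : Dev m.f) {H} (hH : Cls m m' H) : Cm m m' := by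
  have e : m ≠ m' := by rintro rfl; exact hm (self_row m H hH)
  obtain ⟨P, hP, -⟩ := tpe m'
  refine ⟨e, ?_⟩
  by_cases hb : Bad m P
  · exact H53.two m m' H e (H27.badd self_row m m' H P hm hd e hH hP hb) hH
  by_cases hd' : Dev m'.f
  · exact (H85.dev m m' H P hm hd' e hH hP hb).elim id fun hv => H53.two m m' H e hv hH
  · exact H20.ber_row m m' e hd' (H17.Cm.good m m' H P hm e hH hP hb)

variable [IsAlgClosed Ω] [CharZero Ω]

/-- Relations over one step. -/
theorem cl1_row (hf : Sf C Ω (ι ⊕ ι)) (hS : (sys k C Ω ι).Sec) : CL1 k C Ω ι := by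
  intro m J l l' t x r hm hl st x0 hx hr e T hT
  obtain ⟨F, h, s, h1, h2, h3, h4, a4, a5, hs, e⟩ := H58.pre hf hS hl st x0 hx hr e
  obtain ⟨q, hq, P⟩ : ∃ q : ι → cl C (range (pt l t)), (fun i => algebraMap _ Ω (q i)) = pt l t ∧
    Pc m q (dir l) t := ⟨_, rfl, ex_pc hl st.mem⟩
  have h0 : ∀ σ : Ω ≃ₐ[cl C (range (pt l t))] Ω, σ t = t → (∀ i, σ (dir l i) = dir l i) →
      σ s = s := fun σ a1 a2 => hs (σ.restrictScalars C) (by
    rintro _ ⟨i | i, rfl⟩
    · have h5 : σ (pt l t i) = pt l t i := congrFun hq i ▸ σ.commutes (q i)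
      rw [show pt l t i = l (.inl i) + t * dir l i from rfl, map_add, map_mul, a1, a2] at h5
      exact add_right_cancel h5
    · exact a2 i) a1
  obtain ⟨c, hc⟩ := sq_fix (H40.ind_tu hl st.mem _ le_rfl) h0
    (A := pen q F * rf (grad m.f q) (pen q (map (algebraMap k C) h))) (by
      rw [e, map_mul, aeval_rf, aeval_pen, aeval_pen, ev_pt h2 l t, ev_pt h3.map l' t,
        st.pt_eq, st.dir_eq, ← Pc.grad_alg, hq])
  obtain ⟨a, a0, h5⟩ := P.swap self_row hm h2 h1 h3.map h4 hc
  by_cases hd : Dev m.f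
  · have h6 := congrArg (rf (grad m.f q)) h5
    rw [rf_inv P.nn, map_mul, rf_C] at h6
    have h7 := h2.mul (h3.map (K := C))
    refine cls_dev hm hd (H := F * map (algebraMap k C) h * (F * map (algebraMap k C) h))
      ⟨mul_self_ne_zero.2 (mul_ne_zero h1.ne_zero h4.ne_zero), h7.mul h7,
        P.iv (.inl rfl) ?_, fun B _ _ p v b1 b2 b3 => by
          rw [map_mul, map_mul, a4 T hT B p v b1 b2 b3, mul_zero, mul_zero]⟩
    rw [map_mul, map_mul, h5, map_one, one_mul]
    nth_rw 1 [h6]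
    ring
  · have a3 := P.iv (.inl rfl) ((iv_swap hm hd P.on h2 h3 (fun h => h4.ne_zero (by simp [h])) a0
      h5).trans (by simp))
    have hH : Cls m T (map (algebraMap k C) h * map (algebraMap k C) h) :=
      ⟨mul_ne_zero h4.ne_zero h4.ne_zero, h3.map.mul h3.map, a3,
        fun B _ _ p v b1 b2 b3 => by rw [map_mul, a4 T hT B p v b1 b2 b3, zero_mul]⟩
    have ne : m ≠ T := by rintro rfl; exact hm (self_row m _ hH)
    refine ⟨ne, (H74.bert m T _ ne h4 (rk_of_primes h4 fun π hπ hd => ?_)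
      fun B _ _ _ l l' t b1 b2 => ?_).elim id fun hv => H53.two m T _ ne hv hH⟩
    · obtain ⟨U, -, hU⟩ := a5 π hπ hd
      exact H40.rkd hf hS U l π hl hπ hU
    · have := a3.st hH.lin b2
      rwa [hH.tn.tl hH.lin b1, map_mul, mul_self_eq_zero] at this

variable (k C ι) in
/-- Reduced chains do not close up. -/
theorem top [Nontrivial ι] : H72.Fin' k C ι := by
  rintro Ω _ _ _ _ hf ⟨l, hl⟩
  have hS := H2.Sc.sec (k := k) hf hl
  exact H58.fin hf H32.bas H27.lift hS H32.pass (self (H65.inv hl) self_row)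
    (fun m J l t l' => cl1_row hf hS m J l l' t)
    (clq (H65.inv hl) tpe H23.conf H74.bert H53.two) (H78.split hS) H17.Cm.sys_end

end Pool.Agent.MP_249f74_an.H18
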