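import Pool.Agent.MP_249f74_an.H18.Base
import Pool.Agent.MP_249f74_an.H58.Sib
import Pool.Agent.MP_249f74_an.H40.Rkd
import Pool.Agent.MP_249f74_an.H2.Sec
import Pool.Agent.MP_249f74_an.H27.Lift
import Pool.Agent.MP_249f74_an.H17.CmEnd
import Pool.Agent.MP_249f74_an.H42.Esc
import Pool.Agent.MP_249f74_an.H72.Zero

/-!
Reduced chains of reflections in real mirrors do not close up: assembly.
-/

namespace Pool.Agent.MP_249f74_an.H18

open H32 (sys)
open H42 (Gen Sf)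

variable {k C ι : Type} [Field k] [Algebra k ℝ] [Field C] [Algebra k C] [Fintype ι]
  [DecidableEq ι] [IsAlgClosed C] [CharZero C]

variable (k C ι) in
/-- A statement holds over all fields that are algebraic over the field of a generic edge. -/
def All (p : ∀ (Ω : Type) [Field Ω] [Algebra C Ω], Prop) : Prop :=
  ∀ (Ω : Type) [Field Ω] [CharZero Ω] [IsAlgClosed Ω] [Algebra C Ω] (l : ι ⊕ ι → Ω),
    Sf C Ω (ι ⊕ ι) → Gen C l → (sys k C Ω ι).Sec → p Ω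

theorem fin_b [Nontrivial ι] (h1 : All k C ι fun Ω _ _ => INV k C Ω ι) (h2 : SELF k C ι)
    (h3 : All k C ι fun Ω _ _ => ONE k C Ω ι) (h4 : CONF k C ι) (h5 : BERT k C ι)
    (h6 : TWO k C ι) (h7 : All k C ι fun Ω _ _ => (sys k C Ω ι).SPL) : H72.Fin' k C ι := by
  rintro Ω _ _ _ _ hf ⟨l, hl⟩
  have hS := H2.Sc.sec (k := k) hf hl
  have hI := h1 Ω l hf hl hS
  exact H58.fin hf H32.bas H27.lift hS H32.pass (self hI h2)
    (fun m J l t l' => cl1 (h3 Ω _ hf hl hS) (H40.rkd hf hS) h2 h5 h6 m J l l' t)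
    (clq hI tpe h4 h5 h6) (H42.Sys.split H32.bas hS (h7 Ω l hf hl hS)) H17.Cm.sys_end

theorem fin_a [Nontrivial ι] (h1 : All k C ι fun Ω _ _ => INV k C Ω ι) (h2 : SELF k C ι)
    (h3 : TWO k C ι) (h4 : All k C ι fun Ω _ _ => H58.CLQ (sys k C Ω ι)) (h5 : GOOD k C ι)
    (h6 : BER k C ι) (h7 : BADS k C ι) (h8 : BADD k C ι) (h9 : DEV k C ι)
    (h10 : All k C ι fun Ω _ _ => (sys k C Ω ι).SPL) : H72.Fin' k C ι := by
  rintro Ω _ _ _ _ hf ⟨l, hl⟩
  have hS := H2.Sc.sec (k := k) hf hl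
  exact H42.Sys.fin hf H32.bas H27.lift hS H32.pass
    (cls (h1 Ω l hf hl hS) tpe h2 h3 (h4 Ω l hf hl hS) h5 h6 h7 h8 h9)
    (H42.Sys.split H32.bas hS (h10 Ω l hf hl hS)) H17.Cm.sys_end

end Pool.Agent.MP_249f74_an.H18
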